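import Pool.Agent.H608R3.Lens.Quot

/-!
The complex structure on `ℝ^4` and the cyclic groups of complex scalar rotations.
-/

open MeasureTheory InnerProductGeometry ComplexConjugate

namespace Pool.Agent.H608R3.Lens

/-- four dimensional Euclidean space -/
abbrev E4 := EuclideanSpace ℝ (Fin 4)

/-- first complex coordinate -/
noncomputable def c1 (x : E4) : ℂ := ⟨x 0, x 1⟩

/-- second complex coordinate -/
noncomputable def c2 (x : E4) : ℂ := ⟨x 2, x 3⟩

/-- the vector with given complex coordinates -/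
noncomputable def mk4 (z w : ℂ) : E4 := !₂[z.re, z.im, w.re, w.im]

@[simp] lemma c1_mk4 (z w : ℂ) : c1 (mk4 z w) = z := by
  apply Complex.ext <;> simp [c1, mk4]

@[simp] lemma c2_mk4 (z w : ℂ) : c2 (mk4 z w) = w := by
  apply Complex.ext <;> simp [c2, mk4]

lemma mk4_c (x : E4) : mk4 (c1 x) (c2 x) = x := by
  ext i
  fin_cases i <;> simp [mk4, c1, c2]

lemma ext_c {x y : E4} (h1 : c1 x = c1 y) (h2 : c2 x = c2 y) : x = y := by
  rw [← mk4_c x, ← mk4_c y, h1, h2]

@[simp] lemma c1_add (x y : E4) : c1 (x + y) = c1 x + c1 y := by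
  apply Complex.ext <;> simp [c1]

@[simp] lemma c2_add (x y : E4) : c2 (x + y) = c2 x + c2 y := by
  apply Complex.ext <;> simp [c2]

@[simp] lemma c1_smul (r : ℝ) (x : E4) : c1 (r • x) = r * c1 x := by
  apply Complex.ext <;> simp [c1]

@[simp] lemma c2_smul (r : ℝ) (x : E4) : c2 (r • x) = r * c2 x := by
  apply Complex.ext <;> simp [c2]

@[simp] lemma c1_sub (x y : E4) : c1 (x - y) = c1 x - c1 y := by
  apply Complex.ext <;> simp [c1]

@[simp] lemma c2_sub (x y : E4) : c2 (x - y) = c2 x - c2 y := by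
  apply Complex.ext <;> simp [c2]

/-- the Hermitian product -/
noncomputable def herm (x y : E4) : ℂ := conj (c1 x) * c1 y + conj (c2 x) * c2 y

lemma inner_eq_re (x y : E4) : inner ℝ x y = (herm x y).re := by
  simp [herm, c1, c2, PiLp.inner_apply, Fin.sum_univ_four]
  ring

lemma norm_sq_eq (x : E4) : ‖x‖ ^ 2 = Complex.normSq (c1 x) + Complex.normSq (c2 x) := by
  rw [EuclideanSpace.norm_sq_eq, Fin.sum_univ_four]
  simp [c1, c2, Complex.normSq_apply]
  ring

lemma herm_self (x : E4) : herm x x = ((‖x‖ ^ 2 : ℝ) : ℂ) := by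
  rw [norm_sq_eq, herm, ← Complex.normSq_eq_conj_mul_self, ← Complex.normSq_eq_conj_mul_self]
  push_cast
  ring

lemma herm_conj (x y : E4) : conj (herm x y) = herm y x := by
  simp [herm]
  ring

lemma herm_add_right (x y z : E4) : herm x (y + z) = herm x y + herm x z := by
  simp [herm]
  ring

lemma herm_smul_right (r : ℝ) (x y : E4) : herm x (r • y) = r * herm x y := by
  simp [herm]
  ring

lemma herm_continuous (x : E4) : Continuous (herm x) := by
  have h1 : Continuous c1 := by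
    have : c1 = fun x : E4 => (x 0 : ℂ) + (x 1 : ℂ) * Complex.I := by
      funext x
      apply Complex.ext <;> simp [c1]
    rw [this]
    fun_prop
  have h2 : Continuous c2 := by
    have : c2 = fun x : E4 => (x 2 : ℂ) + (x 3 : ℂ) * Complex.I := by
      funext x
      apply Complex.ext <;> simp [c2]
    rw [this]
    fun_prop
  unfold herm
  fun_prop

/-- multiplication by a unit complex number, as a linear map -/
noncomputable def rotLin (z : ℂ) : E4 →ₗ[ℝ] E4 where
  toFun x := mk4 (z * c1 x) (z * c2 x)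
  map_add' x y := by
    apply ext_c <;> simp <;> ring
  map_smul' r x := by
    apply ext_c <;> simp <;> ring

/-- multiplication by a unit complex number, as a linear isometry -/
noncomputable def rot (z : Circle) : E4 ≃ₗᵢ[ℝ] E4 where
  toLinearEquiv := LinearEquiv.ofLinearMap (rotLin z) (rotLin (z⁻¹ : Circle))
    (by
      ext1 x
      apply ext_c <;> simp [rotLin])
    (by
      ext1 x
      apply ext_c <;> simp [rotLin])
  norm_map' x := by
    have h : ‖mk4 ((z : ℂ) * c1 x) ((z : ℂ) * c2 x)‖ ^ 2 = ‖x‖ ^ 2 := by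
      rw [norm_sq_eq, norm_sq_eq]
      simp
    have h3 := (sq_eq_sq₀ (norm_nonneg _) (norm_nonneg _)).1 h
    exact h3

@[simp] lemma c1_rot (z : Circle) (x : E4) : c1 (rot z x) = z * c1 x := by
  have : rot z x = mk4 ((z : ℂ) * c1 x) ((z : ℂ) * c2 x) := rfl
  rw [this, c1_mk4]

@[simp] lemma c2_rot (z : Circle) (x : E4) : c2 (rot z x) = z * c2 x := by
  have : rot z x = mk4 ((z : ℂ) * c1 x) ((z : ℂ) * c2 x) := rfl
  rw [this, c2_mk4]

lemma herm_rot_right (z : Circle) (x y : E4) : herm x (rot z y) = z * herm x y := by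
  simp [herm]
  ring

lemma herm_rot_left (z : Circle) (x y : E4) : herm (rot z x) y = conj (z : ℂ) * herm x y := by
  simp only [herm, c1_rot, c2_rot, map_mul]
  ring

/-- multiplication by unit complex numbers, as a homomorphism -/
noncomputable def rotHom : Circle →* (E4 ≃ₗᵢ[ℝ] E4) where
  toFun := rot
  map_one' := by
    ext1 x
    apply ext_c <;> simp
  map_mul' a b := by
    ext1 x
    apply ext_c <;> simp [mul_assoc]

lemma rotHom_apply (z : Circle) (x : E4) : rotHom z x = rot z x := rfl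

lemma unit_coord (x : E4) (hx : ‖x‖ = 1) : c1 x ≠ 0 ∨ c2 x ≠ 0 := by
  by_contra h
  push Not at h
  have := norm_sq_eq x
  rw [h.1, h.2, hx] at this
  simp at this

lemma rot_fixed {z w : Circle} {x : E4} (hx : ‖x‖ = 1) (h : rot z x = rot w x) : z = w := by
  have h1 : (z : ℂ) * c1 x = w * c1 x := by rw [← c1_rot, h, c1_rot]
  have h2 : (z : ℂ) * c2 x = w * c2 x := by rw [← c2_rot, h, c2_rot]
  rcases unit_coord x hx with h0 | h0
  · exact Circle.ext (mul_right_cancel₀ h0 h1)
  · exact Circle.ext (mul_right_cancel₀ h0 h2)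

lemma norm_rot_sub (z w : Circle) (x : E4) (hx : ‖x‖ = 1) :
    ‖rot z x - rot w x‖ = ‖(z : ℂ) - w‖ := by
  have h : ‖rot z x - rot w x‖ ^ 2 = ‖(z : ℂ) - w‖ ^ 2 := by
    rw [norm_sq_eq]
    have e1 : c1 (rot z x - rot w x) = ((z : ℂ) - w) * c1 x := by
      simp; ring
    have e2 : c2 (rot z x - rot w x) = ((z : ℂ) - w) * c2 x := by
      simp; ring
    rw [e1, e2, Complex.normSq_mul, Complex.normSq_mul, ← mul_add, ← norm_sq_eq, hx,
      Complex.normSq_eq_norm_sq]
    ring
  exact (sq_eq_sq₀ (norm_nonneg _) (norm_nonneg _)).1 h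

/-- the `p`-th roots of unity in the circle group -/
noncomputable def Kp (p : ℕ) : Subgroup Circle := (powMonoidHom p : Circle →* Circle).ker

lemma mem_Kp {p : ℕ} {z : Circle} : z ∈ Kp p ↔ z ^ p = 1 := by
  rw [Kp, MonoidHom.mem_ker, powMonoidHom_apply]

lemma Kp_finite (p : ℕ) (hp : 0 < p) : ((Kp p : Subgroup Circle) : Set Circle).Finite := by
  have h1 : {z : ℂ | z ^ p = 1}.Finite := by
    have : {z : ℂ | z ^ p = 1} ⊆ ((Polynomial.nthRoots p (1 : ℂ)).toFinset : Set ℂ) := by
      intro z hz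
      simp only [Finset.mem_coe, Multiset.mem_toFinset]
      rw [Polynomial.mem_nthRoots hp]
      exact hz
    exact (Finset.finite_toSet _).subset this
  refine Set.Finite.of_finite_image (f := fun z : Circle => (z : ℂ)) (h1.subset ?_) ?_
  · rintro _ ⟨z, hz, rfl⟩
    have hz' : z ^ p = 1 := mem_Kp.1 hz
    show (z : ℂ) ^ p = 1
    rw [← Circle.coe_pow, hz', Circle.coe_one]
  · intro a _ b _ h
    exact Circle.ext h

/-- the cyclic group of rotations of order `p` -/
noncomputable def Gp (p : ℕ) : Subgroup (E4 ≃ₗᵢ[ℝ] E4) := (Kp p).map rotHom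

lemma mem_Gp {p : ℕ} {g : E4 ≃ₗᵢ[ℝ] E4} : g ∈ Gp p ↔ ∃ z ∈ Kp p, rot z = g := by
  rw [Gp, Subgroup.mem_map]
  rfl

lemma Gp_finite (p : ℕ) (hp : 0 < p) : Finite (Gp p) := by
  have h := (Kp_finite p hp).image rotHom
  rw [← Subgroup.coe_map] at h
  exact h.to_subtype

lemma Gp_free (p : ℕ) (g : E4 ≃ₗᵢ[ℝ] E4) (hg : g ∈ Gp p) (x : E4) (hx : ‖x‖ = 1)
    (h : g x = x) : g = 1 := by
  obtain ⟨z, hz, rfl⟩ := mem_Gp.1 hg
  have h1 : rot z x = rot 1 x := by
    rw [h]
    apply ext_c <;> simp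
  have := rot_fixed hx h1
  rw [this]
  exact rotHom.map_one

end Pool.Agent.H608R3.Lens
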