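import Mathlib

/-!
Definitions for the statement: minimizing geodesics and geodesically convex sets of a metric
space, and spherical space forms `S^n / G` with their Riemannian distance and volume.
-/

open MeasureTheory

namespace Pool.Agent.H608R3.Lens

/-- `γ` is a minimizing geodesic from `x` to `y`, parametrised by arc length on
`[0, dist x y]`: the distance between `γ s` and `γ t` is `|s - t|`. -/
def IsMinimizingGeodesic {M : Type*} [MetricSpace M] (x y : M) (γ : ℝ → M) : Prop :=
  γ 0 = x ∧ γ (dist x y) = y ∧
    ∀ s ∈ Set.Icc 0 (dist x y), ∀ t ∈ Set.Icc 0 (dist x y), dist (γ s) (γ t) = |s - t|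

/-- `Γ` is geodesically convex: any two points of `Γ` are joined by a unique minimizing
geodesic of `M`, and this geodesic lies in `Γ`. -/
def GeodesicallyConvex {M : Type*} [MetricSpace M] (Γ : Set M) : Prop :=
  ∀ x ∈ Γ, ∀ y ∈ Γ, ∃ γ : ℝ → M, IsMinimizingGeodesic x y γ ∧
    (∀ γ' : ℝ → M, IsMinimizingGeodesic x y γ' → Set.EqOn γ' γ (Set.Icc 0 (dist x y))) ∧
    ∀ s ∈ Set.Icc 0 (dist x y), γ s ∈ Γ

/-- the group `G` of linear isometries acts freely on the unit sphere -/
def ActsFreely {E : Type} [NormedAddCommGroup E] [InnerProductSpace ℝ E]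
    (G : Subgroup (E ≃ₗᵢ[ℝ] E)) : Prop :=
  ∀ g ∈ G, ∀ x : E, ‖x‖ = 1 → g x = x → g = 1

/-- the distance of `π x` and `π y` is the least angle between `x` and a point of the
orbit `G y`; in particular the fibres of `π` are the `G`-orbits -/
def IsOrbitDistance {E : Type} [NormedAddCommGroup E] [InnerProductSpace ℝ E]
    (G : Subgroup (E ≃ₗᵢ[ℝ] E)) {M : Type} [MetricSpace M]
    (π : Metric.sphere (0 : E) 1 → M) : Prop :=
  ∀ x y : Metric.sphere (0 : E) 1,
    IsLeast {θ : ℝ | ∃ g ∈ G, θ = InnerProductGeometry.angle (x : E) (g (y : E))}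
      (dist (π x) (π y))

/-- `vol` is `1 / |G|` times the image under `π` of the surface measure of the unit sphere -/
def IsQuotientVolume {E : Type} [NormedAddCommGroup E] [InnerProductSpace ℝ E]
    [MeasureSpace E] [BorelSpace E] [FiniteDimensional ℝ E]
    (G : Subgroup (E ≃ₗᵢ[ℝ] E)) {M : Type} [MeasurableSpace M]
    (π : Metric.sphere (0 : E) 1 → M) (vol : Measure M) : Prop :=
  vol = (Nat.card G : ENNReal)⁻¹ • Measure.map π (volume : Measure E).toSphere

/-- `M`, with its distance and the measure `vol`, is a spherical space form `S^n / G`: there are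
a finite group `G` of linear isometries of `ℝ^(n+1)` acting freely on the unit sphere `S^n` and
a surjection `π : S^n → M` such that the distance of `π x` and `π y` is the least angle between
`x` and a point of the orbit `G y` (so that the fibres of `π` are the `G`-orbits, and `M` carries
the quotient of the round Riemannian metric of `S^n`), and such that `vol` is the Riemannian
volume of the quotient, `1 / |G|` times the image of the surface measure of `S^n`. -/
def IsSphericalSpaceForm (n : ℕ) (M : Type) [MetricSpace M] [MeasurableSpace M]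
    (vol : Measure M) : Prop :=
  ∃ (G : Subgroup (EuclideanSpace ℝ (Fin (n + 1)) ≃ₗᵢ[ℝ] EuclideanSpace ℝ (Fin (n + 1))))
    (π : Metric.sphere (0 : EuclideanSpace ℝ (Fin (n + 1))) 1 → M),
    Finite G ∧ ActsFreely G ∧ Function.Surjective π ∧ IsOrbitDistance G π ∧
    IsQuotientVolume G π vol

end Pool.Agent.H608R3.Lens
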