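import Pool.Agent.H608R3.Lens.Meas

/-!
Assembly: geodesically convex subsets of the lens spaces have small volume.
-/

open MeasureTheory InnerProductGeometry Filter Topology ComplexConjugate

namespace Pool.Agent.H608R3.Lens

lemma tau_tendsto : Tendsto tau atTop (𝓝 0) := by
  have h1 : Tendsto (fun p : ℕ => Real.pi / (p : ℝ)) atTop (𝓝 0) :=
    tendsto_const_div_atTop_nhds_zero_nat Real.pi
  have h2 : ContinuousAt Real.tan 0 := Real.continuousAt_tan.2 (by simp)
  have h3 := h2.tendsto.comp h1
  rw [Real.tan_zero] at h3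
  exact h3

lemma exists_p {η : ℝ} (hη : 0 < η) : ∃ p : ℕ, 3 ≤ p ∧ tau p ≤ 1 ∧ Real.sqrt (4 * tau p) ≤ η := by
  have h1 : Tendsto (fun p => Real.sqrt (4 * tau p)) atTop (𝓝 (Real.sqrt (4 * 0))) :=
    (Real.continuous_sqrt.tendsto _).comp (tau_tendsto.const_mul 4)
  rw [mul_zero, Real.sqrt_zero] at h1
  have e1 := h1.eventually (ge_mem_nhds hη)
  have e2 := tau_tendsto.eventually (ge_mem_nhds one_pos)
  obtain ⟨p, hp⟩ := ((eventually_ge_atTop 3).and (e2.and e1)).exists
  exact ⟨p, hp.1, hp.2.1, hp.2.2⟩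

/-- the preimage of the image of an invariant thin set is the set itself -/
lemma proj_preimage_thin {p : ℕ} [Finite (Gp p)] {x : E4} (hx : ‖x‖ = 1) (e : Circle) (η : ℝ) :
    proj (Gp p) ⁻¹' (proj (Gp p) '' thin (chg hx e) η) = thin (chg hx e) η := by
  apply Set.Subset.antisymm
  · rintro z ⟨w, hw, hwz⟩
    obtain ⟨g, hg, hgw⟩ := (proj_eq_iff _ _ _).1 hwz
    obtain ⟨u, -, rfl⟩ := mem_Gp.1 hg
    have h1 : |F (chg hx e (w : E4))| ≤ η := hw
    rw [hgw, F_chg_rot] at h1
    exact h1
  · exact Set.subset_preimage_image _ _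

/-- the volume of the lens space quotient -/
noncomputable def qvol (p : ℕ) [Finite (Gp p)] [MeasurableSpace (Quo (Gp p))] :
    Measure (Quo (Gp p)) :=
  (Nat.card (Gp p) : ENNReal)⁻¹ •
    Measure.map (proj (Gp p)) (volume : Measure E4).toSphere

lemma connected_sphere : ConnectedSpace (Metric.sphere (0 : E4) 1) := by
  rw [← isConnected_iff_connectedSpace]
  apply isConnected_sphere _ _ zero_le_one
  rw [← Module.finrank_eq_rank, finrank_euclideanSpace_fin]
  norm_num

theorem main (c : ENNReal) (hc : 0 < c) :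
    ∃ (M : Type) (_ : MetricSpace M) (_ : MeasurableSpace M) (_ : BorelSpace M)
      (vol : Measure M), CompactSpace M ∧ ConnectedSpace M ∧ IsSphericalSpaceForm 3 M vol ∧
      0 < vol Set.univ ∧ vol Set.univ < ⊤ ∧
      ∀ Γ : Set M, GeodesicallyConvex Γ → vol Γ < c * vol Set.univ := by
  -- the total surface measure
  have hσ0 : (volume : Measure E4).toSphere Set.univ ≠ 0 := by
    rw [Measure.measure_univ_ne_zero]
    exact Measure.toSphere_ne_zero _
  have hσ1 : (volume : Measure E4).toSphere Set.univ ≠ ⊤ := measure_ne_top _ _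
  -- choice of the thickness
  obtain ⟨η, hη, hsmall⟩ : ∃ η : ℝ, 0 < η ∧
      4 * volume (cone η) < c * (volume : Measure E4).toSphere Set.univ := by
    have h1 : Tendsto (fun n : ℕ => 4 * volume (cone ((1 : ℝ) / (n + 1)))) atTop (𝓝 (4 * 0)) :=
      ENNReal.Tendsto.const_mul cone_tendsto (Or.inr (by norm_num))
    rw [mul_zero] at h1
    have hpos : 0 < c * (volume : Measure E4).toSphere Set.univ :=
      ENNReal.mul_pos hc.ne' hσ0
    obtain ⟨n, hn⟩ := (h1.eventually (gt_mem_nhds hpos)).exists
    exact ⟨(1 : ℝ) / (n + 1), by positivity, hn⟩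
  obtain ⟨p, hp, hτ, hpη⟩ := exists_p hη
  have : Finite (Gp p) := Gp_finite p (by omega)
  let _ : MeasurableSpace (Quo (Gp p)) := borel _
  have : BorelSpace (Quo (Gp p)) := ⟨rfl⟩
  have := connected_sphere
  have hcard0 : (Nat.card (Gp p) : ENNReal)⁻¹ ≠ 0 := by
    apply ENNReal.inv_ne_zero.2
    exact ENNReal.natCast_ne_top _
  have hcard1 : (Nat.card (Gp p) : ENNReal)⁻¹ ≠ ⊤ := by
    apply ENNReal.inv_ne_top.2
    have := Nat.card_pos (α := Gp p)
    exact_mod_cast this.ne'
  have hmeas : Measurable (proj (Gp p)) := (proj_continuous (Gp p)).measurable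
  have huniv : qvol p Set.univ = (Nat.card (Gp p) : ENNReal)⁻¹ *
      (volume : Measure E4).toSphere Set.univ := by
    rw [qvol, Measure.smul_apply, Measure.map_apply hmeas MeasurableSet.univ, Set.preimage_univ,
      smul_eq_mul]
  refine ⟨Quo (Gp p), inferInstance, inferInstance, inferInstance, qvol p, ?_, ?_, ?_, ?_, ?_, ?_⟩
  · refine ⟨?_⟩
    rw [← (proj_surjective (Gp p)).range_eq]
    exact isCompact_range (proj_continuous (Gp p))
  · exact (proj_surjective (Gp p)).connectedSpace (proj_continuous (Gp p))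
  · refine ⟨Gp p, proj (Gp p), inferInstance, Gp_free p, proj_surjective (Gp p), ?_, rfl⟩
    intro x y
    rw [dist_proj]
    exact qdist_isLeast (Gp p) x y
  · rw [huniv]
    exact ENNReal.mul_pos hcard0 hσ0
  · rw [huniv]
    exact ENNReal.mul_lt_top (lt_top_iff_ne_top.2 hcard1) (lt_top_iff_ne_top.2 hσ1)
  · intro Γ hΓ
    rcases Set.eq_empty_or_nonempty Γ with rfl | hne
    · rw [measure_empty, huniv]
      exact ENNReal.mul_pos hc.ne' (mul_ne_zero hcard0 hσ0)
    · obtain ⟨x, hx, e, he⟩ := convex_thin hp hτ hΓ hne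
      have hsub : Γ ⊆ proj (Gp p) '' thin (chg hx e) η := by
        intro q hq
        obtain ⟨z, rfl⟩ := proj_surjective (Gp p) q
        exact ⟨z, (he z hq).trans hpη, rfl⟩
      have hAm : MeasurableSet (proj (Gp p) '' thin (chg hx e) η) := by
        apply IsClosed.measurableSet
        apply IsCompact.isClosed
        exact (thin_closed _ _).isCompact.image (proj_continuous (Gp p))
      calc qvol p Γ ≤ qvol p (proj (Gp p) '' thin (chg hx e) η) := measure_mono hsub
        _ = (Nat.card (Gp p) : ENNReal)⁻¹ * (4 * volume (cone η)) := by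
            rw [qvol, Measure.smul_apply, Measure.map_apply hmeas hAm, proj_preimage_thin,
              thin_measure, smul_eq_mul]
        _ < (Nat.card (Gp p) : ENNReal)⁻¹ *
            (c * (volume : Measure E4).toSphere Set.univ) :=
            (ENNReal.mul_lt_mul_iff_right hcard0 hcard1).2 hsmall
        _ = c * qvol p Set.univ := by
            rw [huniv]
            ring

end Pool.Agent.H608R3.Lens
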