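import Pool.Agent.H608R3.Lens.Cx

/-!
Great circle arcs project to minimizing geodesics of the quotient; consequences of geodesic
convexity.
-/

open MeasureTheory InnerProductGeometry Filter Topology

namespace Pool.Agent.H608R3.Lens

variable {E : Type} [NormedAddCommGroup E] [InnerProductSpace ℝ E]

/-- great circle arc through `x` with direction `e` -/
noncomputable def arc (x e : E) (s : ℝ) : E := Real.cos s • x + Real.sin s • e

lemma arc_continuous (x e : E) : Continuous (arc x e) := by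
  unfold arc
  fun_prop

lemma arc_inner {x e : E} (hx : ‖x‖ = 1) (he : ‖e‖ = 1) (h : inner ℝ x e = 0) (s t : ℝ) :
    inner ℝ (arc x e s) (arc x e t) = Real.cos (s - t) := by
  unfold arc
  simp only [inner_add_left, inner_add_right, real_inner_smul_left, real_inner_smul_right]
  rw [real_inner_self_eq_norm_sq, real_inner_self_eq_norm_sq, real_inner_comm x e, h, hx, he,
    Real.cos_sub]
  ring

lemma arc_norm {x e : E} (hx : ‖x‖ = 1) (he : ‖e‖ = 1) (h : inner ℝ x e = 0) (s : ℝ) :
    ‖arc x e s‖ = 1 := by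
  have h1 : ‖arc x e s‖ ^ 2 = 1 := by
    rw [← real_inner_self_eq_norm_sq, arc_inner hx he h]
    simp
  have := norm_nonneg (arc x e s)
  nlinarith

lemma arc_angle {x e : E} (hx : ‖x‖ = 1) (he : ‖e‖ = 1) (h : inner ℝ x e = 0) (s t : ℝ)
    (hst : |s - t| ≤ Real.pi) :
    angle (arc x e s) (arc x e t) = |s - t| := by
  unfold angle
  rw [arc_inner hx he h, arc_norm hx he h, arc_norm hx he h, mul_one, div_one,
    ← Real.cos_abs, Real.arccos_cos (abs_nonneg _) hst]

/-- the arc as a curve in the sphere -/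
noncomputable def arcS {x e : E} (hx : ‖x‖ = 1) (he : ‖e‖ = 1) (h : inner ℝ x e = 0) (s : ℝ) :
    Metric.sphere (0 : E) 1 :=
  ⟨arc x e s, by rw [mem_sphere_zero_iff_norm]; exact arc_norm hx he h s⟩

lemma inner_eq_cos {x y : E} (hx : ‖x‖ = 1) (hy : ‖y‖ = 1) :
    inner ℝ x y = Real.cos (angle x y) := by
  rw [cos_angle, hx, hy]
  ring

/-- the direction from `x` to `w` -/
noncomputable def dir (x w : E) : E :=
  (Real.sin (angle x w))⁻¹ • (w - Real.cos (angle x w) • x)

lemma sin_angle_pos' {x w : E} (h0 : angle x w ≠ 0) (h1 : angle x w ≠ Real.pi) :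
    0 < Real.sin (angle x w) :=
  Real.sin_pos_of_pos_of_lt_pi (lt_of_le_of_ne (angle_nonneg _ _) (Ne.symm h0))
    (lt_of_le_of_ne (angle_le_pi _ _) h1)

lemma dir_inner {x w : E} (hx : ‖x‖ = 1) (hw : ‖w‖ = 1) : inner ℝ x (dir x w) = 0 := by
  unfold dir
  rw [real_inner_smul_right, inner_sub_right, real_inner_smul_right,
    real_inner_self_eq_norm_sq, hx, inner_eq_cos hx hw]
  ring

lemma dir_norm {x w : E} (hx : ‖x‖ = 1) (hw : ‖w‖ = 1) (h0 : angle x w ≠ 0)
    (h1 : angle x w ≠ Real.pi) : ‖dir x w‖ = 1 := by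
  have hs := sin_angle_pos' h0 h1
  have h2 : ‖dir x w‖ ^ 2 = 1 := by
    unfold dir
    rw [← real_inner_self_eq_norm_sq]
    rw [real_inner_smul_left, real_inner_smul_right]
    simp only [inner_sub_left, inner_sub_right, real_inner_smul_left, real_inner_smul_right]
    rw [real_inner_self_eq_norm_sq, real_inner_self_eq_norm_sq, real_inner_comm x w, hx, hw,
      inner_eq_cos hx hw]
    have := Real.sin_sq_add_cos_sq (angle x w)
    field_simp
    nlinarith
  have := norm_nonneg (dir x w)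
  nlinarith

lemma arc_dir {x w : E} (h0 : angle x w ≠ 0) (h1 : angle x w ≠ Real.pi) :
    arc x (dir x w) (angle x w) = w := by
  have hs := sin_angle_pos' h0 h1
  unfold arc dir
  rw [smul_smul, mul_inv_cancel₀ hs.ne', one_smul]
  abel

lemma arc_zero (x e : E) : arc x e 0 = x := by
  simp [arc]

variable (G : Subgroup (E ≃ₗᵢ[ℝ] E)) [Finite G]

omit [Finite G] in
lemma qdist_le_angle (x y : E) : qdist G x y ≤ angle x y := by
  have h := qdist_le G x y G.one_mem
  have h1 : (1 : E ≃ₗᵢ[ℝ] E) y = y := rfl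
  rw [h1] at h
  exact h

/-- a great circle arc realising the quotient distance projects to a minimizing geodesic -/
lemma arc_minimizing {x w : Metric.sphere (0 : E) 1} {e : E} (he : ‖e‖ = 1)
    (h : inner ℝ (x : E) e = 0) (hθ : qdist G (x : E) (w : E) = angle (x : E) (w : E))
    (hw : arc (x : E) e (angle (x : E) (w : E)) = w) :
    IsMinimizingGeodesic (proj G x) (proj G w)
      (fun s => proj G (arcS (norm_sphere x) he h s)) := by
  have hx := norm_sphere x
  have hd : dist (proj G x) (proj G w) = angle (x : E) (w : E) := by rw [dist_proj, hθ]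
  have e0 : arcS (norm_sphere x) he h 0 = x := Subtype.ext (arc_zero _ _)
  have e1 : arcS (norm_sphere x) he h (angle (x : E) (w : E)) = w := Subtype.ext hw
  have hpi : angle (x : E) (w : E) ≤ Real.pi := angle_le_pi _ _
  have key : ∀ s t : ℝ, |s - t| ≤ Real.pi →
      dist (proj G (arcS (norm_sphere x) he h s)) (proj G (arcS (norm_sphere x) he h t))
        ≤ |s - t| := by
    intro s t hst
    rw [dist_proj]
    refine (qdist_le_angle G _ _).trans ?_
    exact (arc_angle hx he h s t hst).le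
  refine ⟨?_, ?_, ?_⟩
  · simp only [e0]
  · simp only [hd, e1]
  · rw [hd]
    have main : ∀ s t : ℝ, 0 ≤ s → s ≤ t → t ≤ angle (x : E) (w : E) →
        dist (proj G (arcS (norm_sphere x) he h s)) (proj G (arcS (norm_sphere x) he h t))
        = |s - t| := by
      intro s t hs hst ht
      apply le_antisymm
      · apply key
        rw [abs_sub_comm, abs_of_nonneg (by linarith)]
        linarith
      · have a1 := key 0 s (by rw [abs_sub_comm, abs_of_nonneg (by linarith)]; linarith)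
        have a2 := key t (angle (x : E) (w : E))
          (by rw [abs_sub_comm, abs_of_nonneg (by linarith)]; linarith)
        rw [abs_sub_comm, abs_of_nonneg (by linarith)] at a1 a2
        rw [e0] at a1
        rw [e1] at a2
        have t1 := dist_triangle (proj G x) (proj G (arcS (norm_sphere x) he h s)) (proj G w)
        have t2 := dist_triangle (proj G (arcS (norm_sphere x) he h s))
          (proj G (arcS (norm_sphere x) he h t)) (proj G w)
        rw [hd] at t1
        rw [abs_sub_comm, abs_of_nonneg (by linarith)]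
        linarith
    intro s hs t ht
    rcases le_total s t with hst | hst
    · exact main s t hs.1 hst ht.2
    · rw [dist_comm, abs_sub_comm]
      exact main t s ht.1 hst hs.2

/-- in a geodesically convex set, nearest representatives are unique -/
lemma nearest_unique (hfree : ∀ g ∈ G, ∀ x : E, ‖x‖ = 1 → g x = x → g = 1)
    {Γ : Set (Quo G)} (hΓ : GeodesicallyConvex Γ) {x y : Metric.sphere (0 : E) 1}
    (hx : proj G x ∈ Γ) (hy : proj G y ∈ Γ) {g₁ g₂ : E ≃ₗᵢ[ℝ] E} (h1 : g₁ ∈ G) (h2 : g₂ ∈ G)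
    (e1 : qdist G (x : E) (y : E) = angle (x : E) (g₁ y))
    (e2 : qdist G (x : E) (y : E) = angle (x : E) (g₂ y)) : g₁ = g₂ := by
  have nx := norm_sphere x
  have ny := norm_sphere y
  -- it is enough that the two points agree
  have suff : g₁ (y : E) = g₂ y → g₁ = g₂ := by
    intro h
    have h3 : (g₂⁻¹ * g₁ : E ≃ₗᵢ[ℝ] E) (y : E) = y := by
      have : (g₂⁻¹ * g₁ : E ≃ₗᵢ[ℝ] E) (y : E) = (g₂⁻¹ : E ≃ₗᵢ[ℝ] E) (g₁ y) := rfl
      rw [this, h]
      have h4 : (g₂⁻¹ * g₂ : E ≃ₗᵢ[ℝ] E) (y : E) = y := by rw [inv_mul_cancel]; rfl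
      exact h4
    have h5 := hfree _ (G.mul_mem (G.inv_mem h2) h1) _ ny h3
    rw [inv_mul_eq_one] at h5
    exact h5.symm
  apply suff
  have n1 : ‖g₁ (y : E)‖ = 1 := by rw [g₁.norm_map, ny]
  have n2 : ‖g₂ (y : E)‖ = 1 := by rw [g₂.norm_map, ny]
  by_cases h0 : angle (x : E) (g₁ y) = 0
  · have a1 := angle_eq_zero_unit nx n1 h0
    have a2 := angle_eq_zero_unit nx n2 (by rw [← e2, e1, h0])
    rw [← a1, ← a2]
  by_cases hpi : angle (x : E) (g₁ y) = Real.pi
  · have hm : ∀ v : E, ‖v‖ = 1 → angle (x : E) v = Real.pi → v = -(x : E) := by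
      intro v hv hv'
      have h6 : angle (-(x : E)) v = 0 := by rw [angle_neg_left, hv', sub_self]
      exact (angle_eq_zero_unit (by rw [norm_neg, nx]) hv h6).symm
    rw [hm _ n1 hpi, hm _ n2 (by rw [← e2, e1, hpi])]
  -- the two arcs
  let w₁ : Metric.sphere (0 : E) 1 := ⟨g₁ y, by rw [mem_sphere_zero_iff_norm]; exact n1⟩
  let w₂ : Metric.sphere (0 : E) 1 := ⟨g₂ y, by rw [mem_sphere_zero_iff_norm]; exact n2⟩
  have p1 : proj G w₁ = proj G y := (proj_eq_iff G _ _).2 ⟨g₁, h1, rfl⟩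
  have p2 : proj G w₂ = proj G y := (proj_eq_iff G _ _).2 ⟨g₂, h2, rfl⟩
  have q1 : qdist G (x : E) (w₁ : E) = angle (x : E) (w₁ : E) := by
    rw [← dist_proj, p1, dist_proj, e1]
  have q2 : qdist G (x : E) (w₂ : E) = angle (x : E) (w₂ : E) := by
    rw [← dist_proj, p2, dist_proj, e2]
  have hθ : angle (x : E) (w₂ : E) = angle (x : E) (w₁ : E) := by
    rw [← q1, ← q2, ← dist_proj, ← dist_proj, p1, p2]
  have h0' : angle (x : E) (w₂ : E) ≠ 0 := by rw [hθ]; exact h0
  have hpi' : angle (x : E) (w₂ : E) ≠ Real.pi := by rw [hθ]; exact hpi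
  have d1 := dir_norm (w := (w₁ : E)) nx n1 h0 hpi
  have d2 := dir_norm (w := (w₂ : E)) nx n2 h0' hpi'
  have i1 := dir_inner (w := (w₁ : E)) nx n1
  have i2 := dir_inner (w := (w₂ : E)) nx n2
  have m1 := arc_minimizing G (x := x) (w := w₁) d1 i1 q1 (arc_dir h0 hpi)
  have m2 := arc_minimizing G (x := x) (w := w₂) d2 i2 q2 (arc_dir h0' hpi')
  rw [p1] at m1
  rw [p2] at m2
  obtain ⟨γ, -, hu, -⟩ := hΓ _ hx _ hy
  have f1 := hu _ m1
  have f2 := hu _ m2
  have hd : dist (proj G x) (proj G y) = angle (x : E) (w₁ : E) := by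
    rw [dist_proj, e1]
  have hpos : 0 < dist (proj G x) (proj G y) := by
    rw [hd]
    exact lt_of_le_of_ne (angle_nonneg _ _) (Ne.symm h0)
  -- for every small positive parameter, the two points are in the same orbit
  have hex : ∀ᶠ s in 𝓝[>] (0 : ℝ), ∃ k : G,
      arc (x : E) (dir (x : E) w₁) s = (k : E ≃ₗᵢ[ℝ] E) (arc (x : E) (dir (x : E) w₂) s) := by
    have hIoc : Set.Ioo (0 : ℝ) (dist (proj G x) (proj G y)) ∈ 𝓝[>] (0 : ℝ) :=
      Ioo_mem_nhdsGT hpos
    filter_upwards [hIoc] with s hs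
    have hs' : s ∈ Set.Icc 0 (dist (proj G x) (proj G y)) := ⟨hs.1.le, hs.2.le⟩
    have := (f1 hs').trans (f2 hs').symm
    obtain ⟨k, hk, hk'⟩ := (proj_eq_iff G _ _).1 this
    exact ⟨⟨k, hk⟩, hk'⟩
  have hfr : ∃ k : G, ∃ᶠ s in 𝓝[>] (0 : ℝ),
      arc (x : E) (dir (x : E) w₁) s = (k : E ≃ₗᵢ[ℝ] E) (arc (x : E) (dir (x : E) w₂) s) := by
    by_contra hcon
    push Not at hcon
    have hcon' : ∀ k : G, ∀ᶠ s in 𝓝[>] (0 : ℝ),
      ¬ arc (x : E) (dir (x : E) w₁) s
        = (k : E ≃ₗᵢ[ℝ] E) (arc (x : E) (dir (x : E) w₂) s) := by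
      intro k
      have := hcon k
      simpa [Filter.not_frequently] using this
    have hall := Filter.eventually_all.2 hcon'
    obtain ⟨s, hs1, hs2⟩ := (hex.and hall).exists
    obtain ⟨k, hk⟩ := hs1
    exact hs2 k hk
  obtain ⟨k, hk⟩ := hfr
  -- `k` fixes `x`
  have hk1 : (k : E ≃ₗᵢ[ℝ] E) = 1 := by
    apply hfree k k.2 x nx
    have c1' : Tendsto (fun s => arc (x : E) (dir (x : E) w₁) s
        - (k : E ≃ₗᵢ[ℝ] E) (arc (x : E) (dir (x : E) w₂) s)) (𝓝[>] (0 : ℝ))
        (𝓝 ((x : E) - (k : E ≃ₗᵢ[ℝ] E) (x : E))) := by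
      have hc : Continuous (fun s => arc (x : E) (dir (x : E) w₁) s
        - (k : E ≃ₗᵢ[ℝ] E) (arc (x : E) (dir (x : E) w₂) s)) :=
        (arc_continuous _ _).sub ((k : E ≃ₗᵢ[ℝ] E).continuous.comp (arc_continuous _ _))
      have := hc.tendsto 0
      simp only [arc_zero] at this
      exact this.mono_left nhdsWithin_le_nhds
    have hcl : (x : E) - (k : E ≃ₗᵢ[ℝ] E) (x : E) ∈ ({0} : Set E) := by
      refine isClosed_singleton.mem_of_frequently_of_tendsto ?_ c1'
      refine hk.mono ?_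
      intro s hs
      simp [hs]
    have : (x : E) - (k : E ≃ₗᵢ[ℝ] E) (x : E) = 0 := hcl
    exact (sub_eq_zero.1 this).symm
  obtain ⟨s, hs, hsI⟩ := (hk.and_eventually (Ioo_mem_nhdsGT Real.pi_pos)).exists
  rw [hk1] at hs
  have hs' : arc (x : E) (dir (x : E) w₁) s = arc (x : E) (dir (x : E) w₂) s := hs
  have hsin : Real.sin s ≠ 0 := (Real.sin_pos_of_pos_of_lt_pi hsI.1 hsI.2).ne'
  have hdir : dir (x : E) w₁ = dir (x : E) w₂ := by
    unfold arc at hs'
    have := add_left_cancel hs'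
    exact smul_right_injective E hsin this
  have r1 : (w₁ : E) = arc (x : E) (dir (x : E) w₁) (angle (x : E) w₁) := (arc_dir h0 hpi).symm
  have r2 : (w₂ : E) = arc (x : E) (dir (x : E) w₂) (angle (x : E) w₂) :=
    (arc_dir h0' hpi').symm
  have : (w₁ : E) = w₂ := by rw [r1, r2, hdir, hθ]
  exact this

/-- in a geodesically convex set, the arc to a nearest representative stays in the set -/
lemma arc_mem {Γ : Set (Quo G)} (hΓ : GeodesicallyConvex Γ) {y z : Metric.sphere (0 : E) 1}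
    (hy : proj G y ∈ Γ) (hz : proj G z ∈ Γ)
    (hq : qdist G (y : E) (z : E) = angle (y : E) (z : E))
    {e : E} (he : ‖e‖ = 1) (h : inner ℝ (y : E) e = 0)
    (hw : arc (y : E) e (angle (y : E) (z : E)) = z) {s : ℝ}
    (hs : s ∈ Set.Icc 0 (angle (y : E) (z : E))) :
    proj G (arcS (norm_sphere y) he h s) ∈ Γ := by
  obtain ⟨γ, -, hu, hm⟩ := hΓ _ hy _ hz
  have hd : dist (proj G y) (proj G z) = angle (y : E) (z : E) := by rw [dist_proj, hq]
  rw [← hd] at hs
  have h2 : proj G (arcS (norm_sphere y) he h s) = γ s :=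
    hu _ (arc_minimizing G he h hq hw) hs
  rw [h2]
  exact hm s hs

/-- the nearest representative is given by the same group element along arcs -/
lemma same_element (hfree : ∀ g ∈ G, ∀ x : E, ‖x‖ = 1 → g x = x → g = 1)
    {Γ : Set (Quo G)} (hΓ : GeodesicallyConvex Γ) {x y z : Metric.sphere (0 : E) 1}
    (hx : proj G x ∈ Γ) (hy : proj G y ∈ Γ) (hz : proj G z ∈ Γ)
    (hq : qdist G (y : E) (z : E) = angle (y : E) (z : E))
    (hpi : angle (y : E) (z : E) ≠ Real.pi) :
    ∃ g ∈ G, qdist G (x : E) (y : E) = angle (x : E) (g y) ∧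
      qdist G (x : E) (z : E) = angle (x : E) (g z) := by
  have nx := norm_sphere x
  have ny := norm_sphere y
  have nz := norm_sphere z
  by_cases h0 : angle (y : E) (z : E) = 0
  · have := angle_eq_zero_unit ny nz h0
    obtain ⟨g, hg, h⟩ := qdist_attained G (x : E) (y : E)
    exact ⟨g, hg, h, by rw [← this, h]⟩
  have he := dir_norm (x := (y : E)) ny nz h0 hpi
  have hi := dir_inner (x := (y : E)) (w := (z : E)) ny nz
  have hw := arc_dir (x := (y : E)) (w := (z : E)) h0 hpi
  -- continuity of the angle functions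
  have hcont : ∀ g : E ≃ₗᵢ[ℝ] E,
      Continuous (fun s => angle (x : E) (g (arc (y : E) (dir (y : E) z) s))) := by
    intro g
    rw [continuous_iff_continuousAt]
    intro s
    have hne : g (arc (y : E) (dir (y : E) z) s) ≠ 0 := by
      intro h
      have h1 := g.norm_map (arc (y : E) (dir (y : E) z) s)
      rw [h, arc_norm ny he hi] at h1
      simp at h1
    have h2 : ContinuousAt (fun s => ((x : E), g (arc (y : E) (dir (y : E) z) s))) s := by
      have : Continuous (fun s => g (arc (y : E) (dir (y : E) z) s)) :=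
        g.continuous.comp (arc_continuous _ _)
      exact (continuous_const.prodMk this).continuousAt
    exact ContinuousAt.comp (f := fun s => ((x : E), g (arc (y : E) (dir (y : E) z) s)))
      (g := fun p : E × E => angle p.1 p.2) (continuousAt_angle (sphere_ne_zero x) hne) h2
  -- the sets where `g` is the strict minimiser
  let O : (E ≃ₗᵢ[ℝ] E) → Set ℝ := fun g =>
    {s | ∀ k : G, (k : E ≃ₗᵢ[ℝ] E) ≠ g → angle (x : E) (g (arc (y : E) (dir (y : E) z) s))
      < angle (x : E) ((k : E ≃ₗᵢ[ℝ] E) (arc (y : E) (dir (y : E) z) s))}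
  have hO : ∀ g, IsOpen (O g) := by
    intro g
    have : O g = ⋂ k : G, {s | (k : E ≃ₗᵢ[ℝ] E) ≠ g →
      angle (x : E) (g (arc (y : E) (dir (y : E) z) s))
      < angle (x : E) ((k : E ≃ₗᵢ[ℝ] E) (arc (y : E) (dir (y : E) z) s))} := by
      ext s
      simp [O]
    rw [this]
    apply isOpen_iInter_of_finite
    intro k
    by_cases hk : (k : E ≃ₗᵢ[ℝ] E) = g
    · have : {s : ℝ | (k : E ≃ₗᵢ[ℝ] E) ≠ g →
        angle (x : E) (g (arc (y : E) (dir (y : E) z) s))
        < angle (x : E) ((k : E ≃ₗᵢ[ℝ] E) (arc (y : E) (dir (y : E) z) s))} = Set.univ := by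
        ext s; simp [hk]
      rw [this]
      exact isOpen_univ
    · have : {s : ℝ | (k : E ≃ₗᵢ[ℝ] E) ≠ g →
        angle (x : E) (g (arc (y : E) (dir (y : E) z) s))
        < angle (x : E) ((k : E ≃ₗᵢ[ℝ] E) (arc (y : E) (dir (y : E) z) s))} =
        {s : ℝ | angle (x : E) (g (arc (y : E) (dir (y : E) z) s))
        < angle (x : E) ((k : E ≃ₗᵢ[ℝ] E) (arc (y : E) (dir (y : E) z) s))} := by
        ext s; simp [hk]
      rw [this]
      exact isOpen_lt (hcont g) (hcont k)
  -- every point of the interval is in some `O g`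
  have hcover : ∀ s ∈ Set.Icc 0 (angle (y : E) (z : E)), ∃ g ∈ G, s ∈ O g ∧
      qdist G (x : E) (arc (y : E) (dir (y : E) z) s)
        = angle (x : E) (g (arc (y : E) (dir (y : E) z) s)) := by
    intro s hs
    have hmem := arc_mem G hΓ hy hz hq he hi hw hs
    obtain ⟨g, hg, h⟩ := qdist_attained G (x : E) (arc (y : E) (dir (y : E) z) s)
    refine ⟨g, hg, ?_, h⟩
    intro k hk
    refine lt_of_le_of_ne ?_ ?_
    · rw [← h]
      exact qdist_le G _ _ k.2
    · intro heq
      apply hk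
      exact nearest_unique G hfree hΓ (y := arcS ny he hi s) hx hmem k.2 hg
        (h.trans heq) h
  have h0mem : (0 : ℝ) ∈ Set.Icc 0 (angle (y : E) (z : E)) := ⟨le_rfl, angle_nonneg _ _⟩
  have h1mem : angle (y : E) (z : E) ∈ Set.Icc 0 (angle (y : E) (z : E)) :=
    ⟨angle_nonneg _ _, le_rfl⟩
  obtain ⟨g, hg, hgO, hgq⟩ := hcover 0 h0mem
  have hsub : Set.Icc 0 (angle (y : E) (z : E)) ⊆ O g := by
    have hV : IsOpen (⋃ k : {k : G // (k : E ≃ₗᵢ[ℝ] E) ≠ g}, O (k : G)) :=
      isOpen_iUnion fun k => hO _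
    refine IsPreconnected.subset_left_of_subset_union (hO g) hV ?_ ?_ ⟨0, h0mem, hgO⟩
      isPreconnected_Icc
    · rw [Set.disjoint_left]
      intro s hs hs'
      obtain ⟨k, hk⟩ := Set.mem_iUnion.1 hs'
      have a := hs k.1 k.2
      have b := hk ⟨g, hg⟩ (Ne.symm k.2)
      exact absurd a (not_lt.2 b.le)
    · intro s hs
      obtain ⟨k, hk, hkO, -⟩ := hcover s hs
      by_cases hkg : k = g
      · left
        rw [← hkg]
        exact hkO
      · right
        exact Set.mem_iUnion.2 ⟨⟨⟨k, hk⟩, hkg⟩, hkO⟩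
  have hgz : qdist G (x : E) (z : E) = angle (x : E) (g z) := by
    obtain ⟨k, hk, hkO, hkq⟩ := hcover _ h1mem
    rw [hw] at hkq
    by_cases hkg : k = g
    · rw [hkq, hkg]
    · have a := hsub h1mem ⟨k, hk⟩ hkg
      have b := hkO ⟨g, hg⟩ (Ne.symm hkg)
      exact absurd a (not_lt.2 b.le)
  refine ⟨g, hg, ?_, hgz⟩
  rw [arc_zero] at hgq
  exact hgq

end Pool.Agent.H608R3.Lens
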