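import Pool.Agent.H608R3.Lens.Strip

/-!
The surface measure of the thin sets tends to zero.
-/

open MeasureTheory InnerProductGeometry Filter Topology ComplexConjugate Pointwise

namespace Pool.Agent.H608R3.Lens

lemma F_eq (z : E4) : F z = z 1 * z 2 - z 0 * z 3 := by
  simp [F, c1, c2, Complex.mul_im]
  ring

lemma F_continuous : Continuous F := by
  have : F = fun z : E4 => z 1 * z 2 - z 0 * z 3 := funext F_eq
  rw [this]
  fun_prop

lemma F_smul (r : ℝ) (z : E4) : F (r • z) = r ^ 2 * F z := by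
  rw [F_eq, F_eq]
  simp
  ring

/-- the cone over a thin set -/
def cone (η : ℝ) : Set E4 := {v | 0 < ‖v‖ ∧ ‖v‖ < 1 ∧ |F v| ≤ η * ‖v‖ ^ 2}

lemma cone_measurable (η : ℝ) : MeasurableSet (cone η) := by
  have h1 : MeasurableSet {v : E4 | 0 < ‖v‖} := measurableSet_lt measurable_const measurable_norm
  have h2 : MeasurableSet {v : E4 | ‖v‖ < 1} := measurableSet_lt measurable_norm measurable_const
  have h3 : MeasurableSet {v : E4 | |F v| ≤ η * ‖v‖ ^ 2} := by
    apply measurableSet_le
    · exact (F_continuous.abs).measurable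
    · fun_prop
  exact h1.inter (h2.inter h3)

lemma cone_finite (η : ℝ) : volume (cone η) < ⊤ := by
  refine lt_of_le_of_lt (measure_mono ?_) (measure_ball_lt_top (x := (0 : E4)) (r := 1))
  rintro v ⟨-, h, -⟩
  rw [mem_ball_zero_iff]
  exact h

/-- the last coordinate -/
def coord3 : E4 →ₗ[ℝ] ℝ where
  toFun v := v 3
  map_add' _ _ := rfl
  map_smul' _ _ := rfl

lemma F_zero_null : volume {v : E4 | F v = 0} = 0 := by
  have hsub : {v : E4 | F v = 0} ⊆ {v : E4 | F v = 0 ∧ v 3 ≠ 0} ∪
      ((LinearMap.ker coord3 : Submodule ℝ E4) : Set E4) := by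
    intro v hv
    by_cases h : v 3 = 0
    · right
      exact h
    · left
      exact ⟨hv, h⟩
  refine measure_mono_null hsub (measure_union_null ?_ ?_)
  · refine Measure.addHaar_eq_zero_of_disjoint_translates volume
      (fun n : ℕ => ((1 : ℝ) / (n + 1)) • (EuclideanSpace.single (0 : Fin 4) (1 : ℝ) : E4)) ?_ ?_ ?_
    · rw [isBounded_iff_forall_norm_le]
      refine ⟨1, ?_⟩
      rintro _ ⟨n, rfl⟩
      simp only
      rw [norm_smul, PiLp.norm_single, norm_one, mul_one, Real.norm_of_nonneg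
        (by positivity)]
      rw [div_le_one (by positivity)]
      have : (0 : ℝ) ≤ n := Nat.cast_nonneg n
      linarith
    · intro m n hmn
      rw [Function.onFun, Set.disjoint_left]
      rintro w hw hw'
      rw [Set.singleton_add, Set.mem_image] at hw hw'
      obtain ⟨a, ⟨ha1, ha2⟩, ha⟩ := hw
      obtain ⟨b, ⟨hb1, hb2⟩, hb⟩ := hw'
      have hab : ∀ i : Fin 4, ((1 : ℝ) / (m + 1)) * (EuclideanSpace.single (0 : Fin 4) (1 : ℝ) : E4) i
          + a i = ((1 : ℝ) / (n + 1)) * (EuclideanSpace.single (0 : Fin 4) (1 : ℝ) : E4) i + b i := by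
        intro i
        have := congrArg (fun v : E4 => v i) (ha.trans hb.symm)
        simpa using this
      have h0 := hab 0
      have h1 := hab 1
      have h2 := hab 2
      have h3 := hab 3
      simp at h0 h1 h2 h3
      rw [F_eq] at ha1 hb1
      rw [← h1, ← h2, ← h3] at hb1
      have h5 : (b 0 - a 0) * a 3 = 0 := by linarith
      rcases mul_eq_zero.1 h5 with h6 | h6
      · apply hmn
        have h7 : ((m : ℝ) + 1)⁻¹ = ((n : ℝ) + 1)⁻¹ := by linarith
        have h8 := inv_injective h7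
        have h9 : (m : ℝ) = n := by linarith
        exact_mod_cast h9
      · exact ha2 h6
    · have h1 : MeasurableSet {v : E4 | F v = 0} :=
        (isClosed_singleton.preimage F_continuous).measurableSet
      have h2 : MeasurableSet {v : E4 | v 3 ≠ 0} := by
        have : Measurable fun v : E4 => v 3 := by fun_prop
        exact this (measurableSet_singleton 0).compl
      exact h1.inter h2
  · apply Measure.addHaar_submodule
    intro h
    have h1 : (EuclideanSpace.single (3 : Fin 4) (1 : ℝ) : E4) ∈ (⊤ : Submodule ℝ E4) := trivial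
    rw [← h] at h1
    have h2 : (EuclideanSpace.single (3 : Fin 4) (1 : ℝ) : E4) 3 = 0 := h1
    simp at h2

lemma cone_tendsto : Tendsto (fun n : ℕ => volume (cone ((1 : ℝ) / (n + 1)))) atTop (𝓝 0) := by
  have h := tendsto_measure_iInter_atTop (μ := (volume : Measure E4))
    (s := fun n : ℕ => cone ((1 : ℝ) / (n + 1)))
    (fun n => (cone_measurable _).nullMeasurableSet) (by
      intro m n hmn v hv
      refine ⟨hv.1, hv.2.1, hv.2.2.trans ?_⟩
      apply mul_le_mul_of_nonneg_right _ (sq_nonneg _)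
      apply one_div_le_one_div_of_le (by positivity)
      have : (m : ℝ) ≤ n := by exact_mod_cast hmn
      linarith) ⟨0, (cone_finite _).ne⟩
  have h0 : volume (⋂ n : ℕ, cone ((1 : ℝ) / (n + 1))) = 0 := by
    refine measure_mono_null ?_ F_zero_null
    intro v hv
    rw [Set.mem_iInter] at hv
    have h1 : ∀ n : ℕ, |F v| ≤ (1 : ℝ) / (n + 1) * ‖v‖ ^ 2 := fun n => (hv n).2.2
    have h2 : Tendsto (fun n : ℕ => (1 : ℝ) / (n + 1) * ‖v‖ ^ 2) atTop (𝓝 (0 * ‖v‖ ^ 2)) :=
      tendsto_one_div_add_atTop_nhds_zero_nat.mul_const _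
    rw [zero_mul] at h2
    have h3 := ge_of_tendsto' h2 h1
    have h4 : |F v| = 0 := le_antisymm h3 (abs_nonneg _)
    exact abs_eq_zero.1 h4
  rw [h0] at h
  exact h

/-- the thin subset of the sphere -/
def thin (U : E4 ≃ₗᵢ[ℝ] E4) (η : ℝ) : Set (Metric.sphere (0 : E4) 1) := {z | |F (U z)| ≤ η}

lemma thin_closed (U : E4 ≃ₗᵢ[ℝ] E4) (η : ℝ) : IsClosed (thin U η) := by
  unfold thin
  have : Continuous fun z : Metric.sphere (0 : E4) 1 => |F (U (z : E4))| :=
    (F_continuous.comp (U.continuous.comp continuous_subtype_val)).abs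
  exact isClosed_le this continuous_const

lemma thin_cone (U : E4 ≃ₗᵢ[ℝ] E4) (η : ℝ) :
    Set.Ioo (0 : ℝ) 1 • ((fun z : Metric.sphere (0 : E4) 1 => (z : E4)) '' thin U η)
      = U ⁻¹' cone η := by
  ext v
  rw [Set.mem_smul]
  constructor
  · rintro ⟨r, hr, w, ⟨z, hz, rfl⟩, rfl⟩
    have nz := norm_sphere z
    simp only [Set.mem_preimage, cone, Set.mem_ofPred_eq]
    rw [map_smul, F_smul, norm_smul, U.norm_map, nz, mul_one, Real.norm_of_nonneg hr.1.le]
    refine ⟨hr.1, hr.2, ?_⟩
    rw [abs_mul, abs_of_nonneg (sq_nonneg r), mul_comm η]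
    exact mul_le_mul_of_nonneg_left hz (sq_nonneg _)
  · rintro ⟨h0, h1, h2⟩
    rw [U.norm_map] at h0 h1 h2
    refine ⟨‖v‖, ⟨h0, h1⟩, ‖v‖⁻¹ • v, ⟨⟨‖v‖⁻¹ • v, ?_⟩, ?_, rfl⟩, ?_⟩
    · rw [mem_sphere_zero_iff_norm, norm_smul, norm_inv, norm_norm, inv_mul_cancel₀ h0.ne']
    · show |F (U (‖v‖⁻¹ • v))| ≤ η
      rw [map_smul, F_smul, abs_mul, abs_of_nonneg (sq_nonneg _), inv_pow,
        inv_mul_le_iff₀ (by positivity)]
      linarith
    · rw [smul_smul, mul_inv_cancel₀ h0.ne', one_smul]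

lemma thin_measure (U : E4 ≃ₗᵢ[ℝ] E4) (η : ℝ) :
    (volume : Measure E4).toSphere (thin U η) = 4 * volume (cone η) := by
  rw [Measure.toSphere_apply' _ (thin_closed U η).measurableSet]
  have h := thin_cone U η
  have h1 : volume (Set.Ioo (0 : ℝ) 1 • ((↑) '' thin U η : Set E4)) = volume (cone η) := by
    rw [h]
    exact U.measurePreserving.measure_preimage (cone_measurable η).nullMeasurableSet
  rw [h1]
  simp

end Pool.Agent.H608R3.Lens
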