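import Pool.Agent.H608R3.Lens.Defs

/-!
The quotient of the unit sphere by a finite group of linear isometries, as a metric space.
-/

open MeasureTheory InnerProductGeometry

namespace Pool.Agent.H608R3.Lens

variable {E : Type} [NormedAddCommGroup E] [InnerProductSpace ℝ E]

lemma norm_sphere (x : Metric.sphere (0 : E) 1) : ‖(x : E)‖ = 1 := by
  have := x.2
  simpa using this

lemma sphere_ne_zero (x : Metric.sphere (0 : E) 1) : (x : E) ≠ 0 := by
  intro h
  have := norm_sphere x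
  rw [h] at this
  simp at this

/-- The unit sphere as a type carrying the pseudometric of the quotient by `G`. -/
structure Pre (G : Subgroup (E ≃ₗᵢ[ℝ] E)) where
  /-- the point -/
  pt : Metric.sphere (0 : E) 1

/-- The distance on the quotient. -/
noncomputable def qdist (G : Subgroup (E ≃ₗᵢ[ℝ] E)) (x y : E) : ℝ :=
  ⨅ g : G, angle x ((g : E ≃ₗᵢ[ℝ] E) y)

lemma qdist_bdd (G : Subgroup (E ≃ₗᵢ[ℝ] E)) (x y : E) :
    BddBelow (Set.range fun g : G => angle x ((g : E ≃ₗᵢ[ℝ] E) y)) :=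
  ⟨0, by rintro _ ⟨g, rfl⟩; exact angle_nonneg _ _⟩

lemma qdist_le (G : Subgroup (E ≃ₗᵢ[ℝ] E)) (x y : E) {g : E ≃ₗᵢ[ℝ] E} (hg : g ∈ G) :
    qdist G x y ≤ angle x (g y) :=
  ciInf_le (qdist_bdd G x y) (⟨g, hg⟩ : G)

lemma qdist_le_mul (G : Subgroup (E ≃ₗᵢ[ℝ] E)) (x y : E) {g k : E ≃ₗᵢ[ℝ] E} (hg : g ∈ G)
    (hk : k ∈ G) : qdist G x y ≤ angle x (g (k y)) := by
  have h2 := qdist_le G x y (G.mul_mem hg hk)
  have h3 : (g * k : E ≃ₗᵢ[ℝ] E) y = g (k y) := rfl
  rw [h3] at h2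
  exact h2

lemma qdist_attained (G : Subgroup (E ≃ₗᵢ[ℝ] E)) [Finite G] (x y : E) :
    ∃ g ∈ G, qdist G x y = angle x (g y) := by
  obtain ⟨g, hg⟩ := exists_eq_ciInf_of_finite (f := fun g : G => angle x ((g : E ≃ₗᵢ[ℝ] E) y))
  exact ⟨g, g.2, hg.symm⟩

lemma qdist_isLeast (G : Subgroup (E ≃ₗᵢ[ℝ] E)) [Finite G] (x y : E) :
    IsLeast {θ : ℝ | ∃ g ∈ G, θ = angle x (g y)} (qdist G x y) := by
  constructor
  · exact qdist_attained G x y
  · rintro θ ⟨g, hg, rfl⟩
    exact qdist_le G x y hg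

lemma angle_isometry (g : E ≃ₗᵢ[ℝ] E) (x y : E) : angle (g x) (g y) = angle x y := by
  unfold angle
  rw [g.inner_map_map, g.norm_map, g.norm_map]

lemma qdist_nonneg (G : Subgroup (E ≃ₗᵢ[ℝ] E)) [Finite G] (x y : E) : 0 ≤ qdist G x y := by
  obtain ⟨g, -, hg⟩ := qdist_attained G x y
  rw [hg]
  exact angle_nonneg _ _

lemma qdist_self (G : Subgroup (E ≃ₗᵢ[ℝ] E)) [Finite G] {x : E} (hx : x ≠ 0) :
    qdist G x x = 0 := by
  apply le_antisymm _ (qdist_nonneg G x x)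
  have h := qdist_le G x x G.one_mem
  have h1 : (1 : E ≃ₗᵢ[ℝ] E) x = x := rfl
  rw [h1, angle_self hx] at h
  exact h

lemma qdist_comm_le (G : Subgroup (E ≃ₗᵢ[ℝ] E)) [Finite G] (x y : E) :
    qdist G x y ≤ qdist G y x := by
  obtain ⟨g, hg, h⟩ := qdist_attained G y x
  rw [h]
  have h2 := qdist_le G x y (G.inv_mem hg)
  have h3 : angle x ((g⁻¹ : E ≃ₗᵢ[ℝ] E) y) = angle y (g x) := by
    rw [← angle_isometry g x]
    have : g ((g⁻¹ : E ≃ₗᵢ[ℝ] E) y) = y := by
      have h4 : (g * g⁻¹ : E ≃ₗᵢ[ℝ] E) y = y := by rw [mul_inv_cancel]; rfl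
      exact h4
    rw [this, angle_comm]
  rw [h3] at h2
  exact h2

lemma qdist_comm (G : Subgroup (E ≃ₗᵢ[ℝ] E)) [Finite G] (x y : E) :
    qdist G x y = qdist G y x :=
  le_antisymm (qdist_comm_le G x y) (qdist_comm_le G y x)

lemma qdist_triangle (G : Subgroup (E ≃ₗᵢ[ℝ] E)) [Finite G] (x y z : E) :
    qdist G x z ≤ qdist G x y + qdist G y z := by
  obtain ⟨g, hg, h⟩ := qdist_attained G x y
  obtain ⟨k, hk, h'⟩ := qdist_attained G y z
  rw [h, h']
  have h2 := qdist_le G x z (G.mul_mem hg hk)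
  have h3 : (g * k : E ≃ₗᵢ[ℝ] E) z = g (k z) := rfl
  rw [h3] at h2
  calc qdist G x z ≤ angle x (g (k z)) := h2
    _ ≤ angle x (g y) + angle (g y) (g (k z)) := angle_le_angle_add_angle _ _ _
    _ = angle x (g y) + angle y (k z) := by rw [angle_isometry]

lemma angle_eq_zero_unit {x y : E} (hx : ‖x‖ = 1) (hy : ‖y‖ = 1) (h : angle x y = 0) : x = y := by
  rw [angle_eq_zero_iff] at h
  obtain ⟨h0, r, hr, hyr⟩ := h
  have : ‖y‖ = r * ‖x‖ := by
    rw [hyr, norm_smul, Real.norm_of_nonneg hr.le]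
  rw [hx, hy, mul_one] at this
  rw [hyr, ← this, one_smul]

lemma qdist_eq_zero (G : Subgroup (E ≃ₗᵢ[ℝ] E)) [Finite G] {x y : E} (hx : ‖x‖ = 1)
    (hy : ‖y‖ = 1) (h : qdist G x y = 0) : ∃ g ∈ G, x = g y := by
  obtain ⟨g, hg, h'⟩ := qdist_attained G x y
  rw [h] at h'
  exact ⟨g, hg, angle_eq_zero_unit hx (by rw [g.norm_map, hy]) h'.symm⟩

noncomputable instance (G : Subgroup (E ≃ₗᵢ[ℝ] E)) [Finite G] : PseudoMetricSpace (Pre G) where
  dist x y := qdist G (x.pt : E) (y.pt : E)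
  dist_self x := qdist_self G (sphere_ne_zero x.pt)
  dist_comm x y := qdist_comm G _ _
  dist_triangle x y z := qdist_triangle G _ _ _

/-- The quotient of the unit sphere by `G`. -/
abbrev Quo (G : Subgroup (E ≃ₗᵢ[ℝ] E)) [Finite G] := SeparationQuotient (Pre G)

/-- The projection. -/
noncomputable def proj (G : Subgroup (E ≃ₗᵢ[ℝ] E)) [Finite G] (x : Metric.sphere (0 : E) 1) :
    Quo G := SeparationQuotient.mk ⟨x⟩

lemma dist_proj (G : Subgroup (E ≃ₗᵢ[ℝ] E)) [Finite G] (x y : Metric.sphere (0 : E) 1) :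
    dist (proj G x) (proj G y) = qdist G (x : E) (y : E) := rfl

lemma proj_surjective (G : Subgroup (E ≃ₗᵢ[ℝ] E)) [Finite G] :
    Function.Surjective (proj G) := by
  intro q
  obtain ⟨⟨x⟩, rfl⟩ := SeparationQuotient.surjective_mk q
  exact ⟨x, rfl⟩

lemma proj_eq_iff (G : Subgroup (E ≃ₗᵢ[ℝ] E)) [Finite G] (x y : Metric.sphere (0 : E) 1) :
    proj G x = proj G y ↔ ∃ g ∈ G, (x : E) = g (y : E) := by
  rw [← dist_eq_zero, dist_proj]
  constructor
  · exact qdist_eq_zero G (norm_sphere x) (norm_sphere y)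
  · rintro ⟨g, hg, h⟩
    apply le_antisymm _ (qdist_nonneg G _ _)
    have h2 := qdist_le G (x : E) (y : E) hg
    rw [← h, angle_self (sphere_ne_zero x)] at h2
    exact h2

lemma proj_continuous (G : Subgroup (E ≃ₗᵢ[ℝ] E)) [Finite G] : Continuous (proj G) := by
  rw [Metric.continuous_iff']
  intro x ε hε
  have hc : ContinuousAt (fun y : Metric.sphere (0 : E) 1 => angle (y : E) (x : E)) x := by
    have h1 : ContinuousAt (fun p : E × E => angle p.1 p.2) ((x : E), (x : E)) :=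
      continuousAt_angle (sphere_ne_zero x) (sphere_ne_zero x)
    have h2 : ContinuousAt (fun y : Metric.sphere (0 : E) 1 => ((y : E), (x : E))) x := by
      fun_prop
    exact ContinuousAt.comp (f := fun y : Metric.sphere (0 : E) 1 => ((y : E), (x : E)))
      (g := fun p : E × E => angle p.1 p.2) h1 h2
  have h0 : angle (x : E) (x : E) = 0 := angle_self (sphere_ne_zero x)
  have := hc.eventually_lt (continuousAt_const (y := ε)) (by rw [h0]; exact hε)
  filter_upwards [this] with y hy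
  rw [dist_proj]
  have h2 := qdist_le G (y : E) (x : E) G.one_mem
  exact lt_of_le_of_lt h2 hy

end Pool.Agent.H608R3.Lens
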