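import Pool.Agent.H608R3.Lens.Geo

/-!
A geodesically convex subset of the lens space lies in a thin neighbourhood of a
two-dimensional set.
-/

open MeasureTheory InnerProductGeometry Filter Topology ComplexConjugate

namespace Pool.Agent.H608R3.Lens

lemma herm_re_le {x y : E4} (hx : ‖x‖ = 1) (hy : ‖y‖ = 1) : |(herm x y).re| ≤ 1 := by
  rw [← inner_eq_re]
  have := abs_real_inner_le_norm x y
  rw [hx, hy] at this
  linarith

/-- the root of unity `exp (2 π i / p)` -/
noncomputable def zp (p : ℕ) : Circle := Circle.exp (2 * Real.pi / p)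

lemma zp_mem (p : ℕ) (hp : 0 < p) : zp p ∈ Kp p := by
  rw [mem_Kp, zp, ← Circle.exp_nsmul]
  have : p • (2 * Real.pi / (p : ℝ)) = 2 * Real.pi := by
    rw [nsmul_eq_mul]
    field_simp
  rw [this, Circle.exp_two_pi]

lemma zp_re (p : ℕ) : ((zp p : Circle) : ℂ).re = Real.cos (2 * Real.pi / p) := by
  rw [zp, Circle.coe_exp, Complex.exp_ofReal_mul_I_re]

lemma zp_im (p : ℕ) : ((zp p : Circle) : ℂ).im = Real.sin (2 * Real.pi / p) := by
  rw [zp, Circle.coe_exp, Complex.exp_ofReal_mul_I_im]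

/-- nearest representatives have Hermitian product in a thin sector -/
lemma sector {p : ℕ} (hp : 2 ≤ p) [Finite (Gp p)] {x y : E4} (hx : ‖x‖ = 1) (hy : ‖y‖ = 1)
    {g : E4 ≃ₗᵢ[ℝ] E4} (hg : g ∈ Gp p) (h : qdist (Gp p) x y = angle x (g y)) :
    |(herm x (g y)).im| * Real.cos (Real.pi / p) ≤ Real.sin (Real.pi / p) * (herm x (g y)).re := by
  have hgy : ‖g y‖ = 1 := by rw [g.norm_map, hy]
  have key : ∀ u ∈ Kp p, ((u : ℂ) * herm x (g y)).re ≤ (herm x (g y)).re := by
    intro u hu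
    have h1 : qdist (Gp p) x y ≤ angle x (rot u (g y)) :=
      qdist_le_mul (Gp p) x y (mem_Gp.2 ⟨u, hu, rfl⟩) hg
    rw [h] at h1
    have hru : ‖rot u (g y)‖ = 1 := by rw [(rot u).norm_map, hgy]
    rw [← herm_rot_right, ← inner_eq_re, ← inner_eq_re, inner_eq_cos hx hgy, inner_eq_cos hx hru]
    exact Real.cos_le_cos_of_nonneg_of_le_pi (angle_nonneg _ _) (angle_le_pi _ _) h1
  set A := herm x (g y) with hA
  have hp0 : (0 : ℝ) < p := by positivity
  have hzp := zp_mem p (by omega)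
  have k1 := key _ hzp
  have k2 := key _ ((Kp p).inv_mem hzp)
  rw [Circle.coe_inv_eq_conj] at k2
  rw [Complex.mul_re, zp_re, zp_im] at k1
  rw [Complex.mul_re, Complex.conj_re, Complex.conj_im, zp_re, zp_im] at k2
  have hhalf : 2 * Real.pi / (p : ℝ) = 2 * (Real.pi / p) := by ring
  rw [hhalf, Real.cos_two_mul, Real.sin_two_mul] at k1 k2
  have hs : 0 < Real.sin (Real.pi / p) := by
    apply Real.sin_pos_of_pos_of_lt_pi (by positivity)
    rw [div_lt_iff₀ hp0]
    have : (2 : ℝ) ≤ p := by exact_mod_cast hp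
    nlinarith [Real.pi_pos]
  have hsc := Real.sin_sq_add_cos_sq (Real.pi / (p : ℝ))
  set s := Real.sin (Real.pi / (p : ℝ))
  set c := Real.cos (Real.pi / (p : ℝ))
  have hc2 : c ^ 2 = 1 - s ^ 2 := by linarith
  rw [hc2] at k1 k2
  have e1 : -(A.im * c) ≤ s * A.re := by
    have : s * (-(A.im * c)) ≤ s * (s * A.re) := by linarith
    exact le_of_mul_le_mul_left this hs
  have e2 : A.im * c ≤ s * A.re := by
    have : s * (A.im * c) ≤ s * (s * A.re) := by linarith
    exact le_of_mul_le_mul_left this hs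
  rcases abs_cases A.im with ⟨h3, -⟩ | ⟨h3, -⟩
  · rw [h3]; exact e2
  · rw [h3]; linarith

/-- the slope of the sector -/
noncomputable def tau (p : ℕ) : ℝ := Real.tan (Real.pi / p)

lemma cos_pos_p {p : ℕ} (hp : 3 ≤ p) : 0 < Real.cos (Real.pi / p) := by
  have h3 : (3 : ℝ) ≤ p := by exact_mod_cast hp
  apply Real.cos_pos_of_mem_Ioo
  constructor
  · have : 0 < Real.pi / p := by positivity
    linarith [Real.pi_pos]
  · rw [div_lt_div_iff₀ (by positivity) (by norm_num)]
    nlinarith [Real.pi_pos]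

lemma sin_pos_p {p : ℕ} (hp : 3 ≤ p) : 0 < Real.sin (Real.pi / p) := by
  have h3 : (3 : ℝ) ≤ p := by exact_mod_cast hp
  apply Real.sin_pos_of_pos_of_lt_pi (by positivity)
  rw [div_lt_iff₀ (by positivity)]
  nlinarith [Real.pi_pos]

lemma tau_pos {p : ℕ} (hp : 3 ≤ p) : 0 < tau p := by
  rw [tau, Real.tan_eq_sin_div_cos]
  exact div_pos (sin_pos_p hp) (cos_pos_p hp)

lemma sector' {p : ℕ} (hp : 3 ≤ p) [Finite (Gp p)] {x y : E4} (hx : ‖x‖ = 1) (hy : ‖y‖ = 1)
    {g : E4 ≃ₗᵢ[ℝ] E4} (hg : g ∈ Gp p) (h : qdist (Gp p) x y = angle x (g y)) :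
    |(herm x (g y)).im| ≤ tau p ∧ 0 ≤ (herm x (g y)).re := by
  have h1 := sector (by omega) hx hy hg h
  have hc := cos_pos_p hp
  have hs := sin_pos_p hp
  have hre := (abs_le.1 (herm_re_le hx (by rw [g.norm_map, hy] : ‖g y‖ = 1))).2
  constructor
  · rw [tau, Real.tan_eq_sin_div_cos, le_div_iff₀ hc]
    nlinarith
  · have : 0 ≤ |(herm x (g y)).im| * Real.cos (Real.pi / p) := by positivity
    have h2 : 0 ≤ Real.sin (Real.pi / p) * (herm x (g y)).re := this.trans h1
    exact nonneg_of_mul_nonneg_right h2 hs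

lemma abs_mul_le3 {a b c τ : ℝ} (ha : |a| ≤ 1) (hb : |b| ≤ 1) (hc : |c| ≤ τ) :
    |a * b * c| ≤ τ := by
  rw [abs_mul, abs_mul]
  have h1 : |a| * |b| ≤ 1 := mul_le_one₀ ha (abs_nonneg _) hb
  calc |a| * |b| * |c| ≤ 1 * |c| := mul_le_mul_of_nonneg_right h1 (abs_nonneg _)
    _ ≤ τ := by linarith

lemma im_triple {A B C : ℂ} {τ : ℝ} (hτ1 : τ ≤ 1) (hA : |A.re| ≤ 1) (hB : |B.re| ≤ 1)
    (hC : |C.re| ≤ 1) (hA' : |A.im| ≤ τ) (hB' : |B.im| ≤ τ) (hC' : |C.im| ≤ τ) :
    |(A * C * conj B).im| ≤ 4 * τ := by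
  have e : (A * C * conj B).im = A.re * B.re * C.im + C.re * B.re * A.im
      - A.re * C.re * B.im + A.im * C.im * B.im := by
    simp only [Complex.mul_im, Complex.mul_re, Complex.conj_re, Complex.conj_im]
    ring
  rw [e]
  have h1 := abs_mul_le3 hA hB hC'
  have h2 := abs_mul_le3 hC hB hA'
  have h3 := abs_mul_le3 hA hC hB'
  have h4 := abs_mul_le3 (hA'.trans hτ1) (hC'.trans hτ1) hB'
  rw [abs_le] at *
  constructor <;> linarith [h1.1, h1.2, h2.1, h2.2, h3.1, h3.2, h4.1, h4.2]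

/-- the triple product of three points of a geodesically convex set is almost real -/
lemma triple_bound {p : ℕ} (hp : 3 ≤ p) [Finite (Gp p)] (hτ : tau p ≤ 1)
    {Γ : Set (Quo (Gp p))} (hΓ : GeodesicallyConvex Γ) {x y z : Metric.sphere (0 : E4) 1}
    (hx : proj (Gp p) x ∈ Γ) (hy : proj (Gp p) y ∈ Γ) (hz : proj (Gp p) z ∈ Γ) :
    |(herm x y * herm y z * herm z x).im| ≤ 4 * tau p := by
  have nx := norm_sphere x
  have ny := norm_sphere y
  have nz := norm_sphere z
  obtain ⟨g₀, hg₀, h₀⟩ := qdist_attained (Gp p) (y : E4) (z : E4)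
  have sC := sector' hp ny nz hg₀ h₀
  have nz' : ‖g₀ (z : E4)‖ = 1 := by rw [g₀.norm_map, nz]
  let z' : Metric.sphere (0 : E4) 1 := ⟨g₀ z, by rw [mem_sphere_zero_iff_norm]; exact nz'⟩
  have pz : proj (Gp p) z' = proj (Gp p) z := (proj_eq_iff _ _ _).2 ⟨g₀, hg₀, rfl⟩
  have hz' : proj (Gp p) z' ∈ Γ := by rw [pz]; exact hz
  have hq : qdist (Gp p) (y : E4) (z' : E4) = angle (y : E4) (z' : E4) := by
    rw [← dist_proj, pz, dist_proj, h₀]
  have hpi : angle (y : E4) (z' : E4) ≠ Real.pi := by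
    intro hcon
    have h1 : inner ℝ (y : E4) (z' : E4) = -1 := by
      rw [inner_eq_cos ny nz', hcon, Real.cos_pi]
    rw [inner_eq_re] at h1
    have h2 : (0 : ℝ) ≤ (herm (y : E4) (z' : E4)).re := sC.2
    linarith
  obtain ⟨g, hg, hA, hB⟩ := same_element (Gp p) (Gp_free p) hΓ hx hy hz' hq hpi
  have sA := sector' hp nx ny hg hA
  have sB := sector' hp nx nz' hg hB
  obtain ⟨u, hu, rfl⟩ := mem_Gp.1 hg₀
  obtain ⟨k, hk, rfl⟩ := mem_Gp.1 hg
  have rA := herm_re_le nx (by rw [(rot k).norm_map, ny] : ‖rot k (y : E4)‖ = 1)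
  have rB := herm_re_le nx (by rw [(rot k).norm_map, nz'] : ‖rot k (z' : E4)‖ = 1)
  have rC := herm_re_le ny nz'
  have main := im_triple hτ rA rB rC sA.1 sB.1 sC.1
  have hzz : (z' : E4) = rot u z := rfl
  have e : herm x (rot k (y : E4)) * herm y (z' : E4) * conj (herm x (rot k (z' : E4)))
      = herm x y * herm y z * herm z x := by
    rw [hzz, herm_rot_right, herm_rot_right, herm_rot_right, herm_rot_right, map_mul, map_mul,
      herm_conj]
    have h1 : (k : ℂ) * conj (k : ℂ) = 1 := by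
      rw [Complex.mul_conj, Circle.normSq_coe]; simp
    have h2 : (u : ℂ) * conj (u : ℂ) = 1 := by
      rw [Complex.mul_conj, Circle.normSq_coe]; simp
    calc (k : ℂ) * herm x y * ((u : ℂ) * herm y z) * (conj (k : ℂ) * (conj (u : ℂ) * herm z x))
        = ((k : ℂ) * conj (k : ℂ)) * ((u : ℂ) * conj (u : ℂ)) *
          (herm x y * herm y z * herm z x) := by ring
      _ = _ := by rw [h1, h2]; ring
  rw [e] at main
  exact main

/-- a unit vector Hermitian orthogonal to `x` -/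
noncomputable def perp (x : E4) : E4 := mk4 (-conj (c2 x)) (conj (c1 x))

/-- expansion of the Hermitian product in the basis `x, perp x` -/
lemma herm_expand {x : E4} (hx : ‖x‖ = 1) (y z : E4) :
    herm y z = herm y x * herm x z + herm y (perp x) * herm (perp x) z := by
  have h := norm_sq_eq x
  rw [hx] at h
  have h' : (1 : ℂ) = conj (c1 x) * c1 x + conj (c2 x) * c2 x := by
    rw [← Complex.normSq_eq_conj_mul_self, ← Complex.normSq_eq_conj_mul_self, ← Complex.ofReal_add,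
      ← h]
    simp
  simp only [herm, perp, c1_mk4, c2_mk4, map_neg, Complex.conj_conj]
  linear_combination (conj (c1 y) * c1 z + conj (c2 y) * c2 z) * h'

/-- the function whose imaginary parts are small -/
noncomputable def beta (x z : E4) : ℂ := herm x z * herm z (perp x)

lemma triple_eq {x : E4} (hx : ‖x‖ = 1) (y z : E4) :
    (herm x y * herm y z * herm z x).im = (beta x y * conj (beta x z)).im := by
  have e : herm x y * herm y z * herm z x
      = ((Complex.normSq (herm x y) * Complex.normSq (herm x z) : ℝ) : ℂ)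
        + beta x y * conj (beta x z) := by
    rw [herm_expand hx y z, beta, beta, map_mul, herm_conj, herm_conj]
    push_cast
    rw [← Complex.mul_conj, ← Complex.mul_conj, herm_conj, herm_conj]
    ring
  rw [e, Complex.add_im, Complex.ofReal_im, zero_add]

/-- a set of complex numbers with small mutual cross products lies in a thin strip -/
lemma strip (B : Set ℂ) {δ : ℝ} (hδ : 0 ≤ δ)
    (h : ∀ u ∈ B, ∀ v ∈ B, |(u * conj v).im| ≤ δ) :
    ∃ e : Circle, ∀ v ∈ B, |((e : ℂ) * v).im| ≤ Real.sqrt δ := by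
  by_cases hsmall : ∀ v ∈ B, ‖v‖ ≤ Real.sqrt δ
  · refine ⟨1, fun v hv => ?_⟩
    rw [Circle.coe_one, one_mul]
    exact (Complex.abs_im_le_norm v).trans (hsmall v hv)
  · push Not at hsmall
    obtain ⟨u, hu, hun⟩ := hsmall
    have hupos : 0 < ‖u‖ := (Real.sqrt_nonneg δ).trans_lt hun
    have hnorm : ‖conj u / (‖u‖ : ℂ)‖ = 1 := by
      rw [norm_div, Complex.norm_conj, Complex.norm_real, norm_norm, div_self hupos.ne']
    have hmem : conj u / (‖u‖ : ℂ) ∈ Submonoid.unitSphere ℂ := by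
      show conj u / (‖u‖ : ℂ) ∈ Metric.sphere (0 : ℂ) 1
      rw [mem_sphere_zero_iff_norm]
      exact hnorm
    refine ⟨⟨conj u / (‖u‖ : ℂ), hmem⟩, ?_⟩
    intro v hv
    have h1 := h u hu v hv
    have e1 : (conj u / (‖u‖ : ℂ) * v).im = ‖u‖⁻¹ * -(u * conj v).im := by
      have e2 : conj u / (‖u‖ : ℂ) * v = ((‖u‖⁻¹ : ℝ) : ℂ) * conj (u * conj v) := by
        rw [map_mul, Complex.conj_conj]
        push_cast
        field_simp
      rw [e2, Complex.im_ofReal_mul, Complex.conj_im]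
    show |(conj u / (‖u‖ : ℂ) * v).im| ≤ Real.sqrt δ
    rw [e1, abs_mul, abs_neg, abs_of_pos (inv_pos.2 hupos), inv_mul_le_iff₀ hupos]
    have h2 : Real.sqrt δ * Real.sqrt δ = δ := Real.mul_self_sqrt hδ
    have h3 : Real.sqrt δ * Real.sqrt δ ≤ ‖u‖ * Real.sqrt δ :=
      mul_le_mul_of_nonneg_right hun.le (Real.sqrt_nonneg δ)
    linarith

/-- the imaginary part function `Im (z₁ conj z₂)` -/
noncomputable def F (z : E4) : ℝ := (c1 z * conj (c2 z)).im

/-- the unitary change of coordinates adapted to `x` and a phase -/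
noncomputable def chgLin (x : E4) (e : Circle) : E4 →ₗ[ℝ] E4 where
  toFun z := mk4 (herm x z) (herm (rot e (perp x)) z)
  map_add' y z := by
    apply ext_c <;> simp [herm_add_right]
  map_smul' r y := by
    apply ext_c <;> simp [herm_smul_right]

lemma chgLin_norm {x : E4} (hx : ‖x‖ = 1) (e : Circle) (z : E4) : ‖chgLin x e z‖ = ‖z‖ := by
  have h : ‖chgLin x e z‖ ^ 2 = ‖z‖ ^ 2 := by
    have h1 := herm_expand hx z z
    rw [herm_self] at h1
    rw [← herm_conj x z, ← herm_conj (perp x) z, ← Complex.normSq_eq_conj_mul_self,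
      ← Complex.normSq_eq_conj_mul_self] at h1
    rw [norm_sq_eq]
    show Complex.normSq (c1 (mk4 (herm x z) (herm (rot e (perp x)) z))) +
      Complex.normSq (c2 (mk4 (herm x z) (herm (rot e (perp x)) z))) = _
    rw [c1_mk4, c2_mk4, herm_rot_left, Complex.normSq_mul, Complex.normSq_conj, Circle.normSq_coe,
      one_mul]
    exact_mod_cast h1.symm
  exact (sq_eq_sq₀ (norm_nonneg _) (norm_nonneg _)).1 h

/-- the unitary change of coordinates as a linear isometry -/
noncomputable def chg {x : E4} (hx : ‖x‖ = 1) (e : Circle) : E4 ≃ₗᵢ[ℝ] E4 :=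
  (LinearIsometry.mk (chgLin x e) (chgLin_norm hx e)).toLinearIsometryEquiv rfl

lemma chg_apply {x : E4} (hx : ‖x‖ = 1) (e : Circle) (z : E4) :
    chg hx e z = mk4 (herm x z) (herm (rot e (perp x)) z) := rfl

lemma F_chg {x : E4} (hx : ‖x‖ = 1) (e : Circle) (z : E4) :
    F (chg hx e z) = ((e : ℂ) * beta x z).im := by
  rw [chg_apply, F, c1_mk4, c2_mk4, herm_conj, herm_rot_right, beta]
  congr 1
  ring

lemma F_chg_rot {x : E4} (hx : ‖x‖ = 1) (e u : Circle) (z : E4) :
    F (chg hx e (rot u z)) = F (chg hx e z) := by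
  rw [F_chg, F_chg, beta, beta, herm_rot_right, herm_rot_left]
  congr 1
  have h2 : (u : ℂ) * conj (u : ℂ) = 1 := by
    rw [Complex.mul_conj, Circle.normSq_coe]; simp
  calc (e : ℂ) * ((u : ℂ) * herm x z * (conj (u : ℂ) * herm z (perp x)))
      = ((u : ℂ) * conj (u : ℂ)) * ((e : ℂ) * (herm x z * herm z (perp x))) := by ring
    _ = _ := by rw [h2, one_mul]

/-- a nonempty geodesically convex set lies in a thin set -/
lemma convex_thin {p : ℕ} (hp : 3 ≤ p) [Finite (Gp p)] (hτ : tau p ≤ 1)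
    {Γ : Set (Quo (Gp p))} (hΓ : GeodesicallyConvex Γ) (hne : Γ.Nonempty) :
    ∃ (x : E4) (hx : ‖x‖ = 1) (e : Circle), ∀ z : Metric.sphere (0 : E4) 1,
      proj (Gp p) z ∈ Γ → |F (chg hx e z)| ≤ Real.sqrt (4 * tau p) := by
  obtain ⟨q, hq⟩ := hne
  obtain ⟨x, rfl⟩ := proj_surjective (Gp p) q
  have nx := norm_sphere x
  obtain ⟨e, he⟩ := strip {b : ℂ | ∃ z : Metric.sphere (0 : E4) 1, proj (Gp p) z ∈ Γ ∧
    b = beta x z} (δ := 4 * tau p) (by have := tau_pos hp; linarith) (by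
      rintro _ ⟨y, hy, rfl⟩ _ ⟨z, hz, rfl⟩
      rw [← triple_eq nx]
      exact triple_bound hp hτ hΓ hq hy hz)
  refine ⟨x, nx, e, ?_⟩
  intro z hz
  rw [F_chg]
  exact he _ ⟨z, hz, rfl⟩

end Pool.Agent.H608R3.Lens
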